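import Pool.Agent.Helper9.TY.Inst
import Pool.Agent.Helper49.TY.CbE
import Pool.Agent.Helper82.TY.RowsZ
import Pool.Agent.Helper16.TY.Tab.All

/-!
MP_8ee768_co, project TH-Y', stage E: the names of the checks used by the printed modules and the collecting
theorems.

* `oneEc j C Z S`: the centre `j`; `onePEc j mC mZ C Z S`: a part of it;
* `SE a b`: if the tables are right (`HypE`), the centres `a ≤ j < b` are done.
-/

set_option autoImplicit false
set_option maxRecDepth 100000
set_option exponentiation.threshold 2000000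

namespace Pool.Agent.Helper60.TY

open Pool.Agent.Helper97.CV
open Pool.Agent.Helper91.TY hiding Acc
open Pool.Agent.Helper49.TY
open Pool.Agent.Helper9.TY
open Pool.Agent.Helper16.TY (reps Tab.tv Good)
open Pool.Agent.Helper16.TY.Tab (tv_good)
open Pool.Agent.Helper7.TB (typ nl clr)
open Pool.Agent.Helper52.TB (rowX)
open Pool.Agent.Helper52.TY (LayC)
open Pool.Agent.Helper82.TY (typz rowz nlz rowsZ_zero)
open Pool.Agent.Helper25.EN (CountA CountB)

/-- the hypotheses on the tables -/
structure HypE : Prop where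
  rows : RowsC reps typ nl clr rowX 5074 6
  a : CountA
  b : CountB

/-- the check of the centre `j` -/
noncomputable def oneEc (j C Z S : ℕ) : Bool :=
  oneE Tab.tv typ 5074 rowyE nlyE typz (rowz 0) (nlz 0) rootW cbE j C Z S

/-- the check of a part of the centre `j` -/
noncomputable def onePEc (j mC mZ C Z S : ℕ) : Bool :=
  onePE Tab.tv typ 5074 rowyE nlyE typz (rowz 0) (nlz 0) rootW cbE j mC mZ C Z S

/-- the laws of the instance -/
theorem lawE (h : HypE) :
    LawE reps Tab.tv typ 5074 rowyE nlyE typz (rowz 0) (nlz 0) rootW cbE LayC where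
  good := tv_good
  rows := fun _ hj => rowsE_of h.rows hj
  rowsx := rowsZ_zero h.a h.b
  root := fun _ hv ho => rootW_eq hv ho
  cb := fun v j _ _ _ hyx hy hx => cbE_law reps j _ hyx hy hx _

/-- the centres `a ≤ j < b` are done -/
def SE (a b : ℕ) : Prop := HypE → SegE reps Tab.tv a b

/-- one centre; `k` is the next number -/
theorem SE.one {j C Z S : ℕ} (k : ℕ) (h : oneEc j C Z S = true)
    (hj : (Nat.beq (Nat.succ j) k && Nat.ble k 32768) = true) : SE j k := by
  intro H
  obtain ⟨h1, h2⟩ := Bool.and_eq_true_iff.1 hj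
  obtain rfl : Nat.succ j = k := Nat.eq_of_beq_eq_true h1
  have h3 : j + 1 ≤ 32768 := Nat.le_of_ble_eq_true h2
  exact SegE.one (oneE_sound (lawE H) (by omega) h)

theorem SE.app {a b c : ℕ} (h : SE a b) (h' : SE b c) : SE a c := fun H => (h H).app (h' H)

/-- one centre in front of a segment -/
theorem SE.cons {j C Z S k b : ℕ} (h : oneEc j C Z S = true)
    (hj : (Nat.beq (Nat.succ j) k && Nat.ble k 32768) = true) (h' : SE k b) : SE j b :=
  (SE.one k h hj).app h'

/-- the parts of the centre `j` with the masks of `ps` are dead -/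
def APE (j : ℕ) (ps : List (ℕ × ℕ)) : Prop :=
  HypE → AllP (PDE reps j (Tab.tv j % 2 ^ 495)) ps

theorem APE.nil (j : ℕ) : APE j [] := fun _ => trivial

theorem APE.cons {j mC mZ C Z S : ℕ} {ps : List (ℕ × ℕ)} (h : onePEc j mC mZ C Z S = true)
    (hj : Nat.ble j 32768 = true) (h' : APE j ps) : APE j ((mC, mZ) :: ps) := fun H =>
  ⟨onePE_sound (lawE H) (Nat.le_of_ble_eq_true hj) h, h' H⟩

/-- one centre from its parts -/
theorem SE.parts {j : ℕ} {ps : List (ℕ × ℕ)} (k : ℕ) (hc : covJ Tab.tv j ps = true)
    (hj : Nat.beq (Nat.succ j) k = true) (h : APE j ps) : SE j k := by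
  intro H
  obtain rfl : Nat.succ j = k := Nat.eq_of_beq_eq_true hj
  exact segE_of_parts (tv_good j) hc (h H)

end Pool.Agent.Helper60.TY
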