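import Pool.Agent.Helper60.TY.InstE
import Pool.Agent.Helper9.TY.FinE
import Pool.Agent.Helper82.TY.RowsX

/-!
MP_8ee768_co, project TH-Y', stage E: the end of the stage.

* `hypE`: the hypotheses on the tables from the class theorem, the flags, the isomorphisms and the two counts;
* `hE_of`: the hypothesis `hE` of `no_cover` from the segment of the generated modules.
-/

set_option autoImplicit false
set_option maxRecDepth 100000
set_option exponentiation.threshold 2000000

namespace Pool.Agent.Helper60.TY

open Pool.Agent.Helper97.CV
open Pool.Agent.Helper79.CV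
open Pool.Agent.Helper49.TY
open Pool.Agent.Helper9.TY (reps_map cenE_reps)
open Pool.Agent.Helper7.TB (typ)
open Pool.Agent.Helper7.TY (FlagL IsoL)
open Pool.Agent.Helper82.TY (lanesL rowsC_of_flags)
open Pool.Agent.Helper16.TY (reps)
open Pool.Agent.Helper25.EN (CountA CountB)

theorem reps_length : reps.length ≤ 32768 := by
  rw [reps_map, List.length_map, List.length_range]
  norm_num

/-- **the hypotheses on the tables** -/
theorem hypE (hR : RootOK 6 (fun _ => True) reps) (hF : FlagL reps 5074 typ lanesL)
    (hI : IsoL 5074 typ lanesL) (cA : CountA) (cB : CountB) : HypE :=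
  ⟨rowsC_of_flags (le_refl 6) reps_length hR hF hI, cA, cB⟩

/-- **STAGE E**, from the segments of the generated modules -/
theorem hE_of (hR : RootOK 6 (fun _ => True) reps) (hF : FlagL reps 5074 typ lanesL)
    (hI : IsoL 5074 typ lanesL) (cA : CountA) (cB : CountB) (h : SE 466 24746) :
    ∀ j r : ℕ, reps[j]? = some r → CenE reps j r :=
  cenE_reps (h (hypE hR hF hI cA cB))

end Pool.Agent.Helper60.TY
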