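import Pool.Agent.Helper63.TY.Star2

/-!
MP_8ee768_co, project TH-Y': the star engine `star4` of helper63 without forced evaluations.

`star5 = star4` as functions: the constants, the keys and the stream are plain closed terms, which the
kernel evaluates once (a recursor step with a literal costs more than ten operations).
-/

set_option autoImplicit false
set_option exponentiation.threshold 2000000

namespace Pool.Agent.Helper60.TY

open Pool.Agent.Helper63.SIMD
open Pool.Agent.Helper63.TY
open Pool.Agent.Helper74.TY (frc frc_eq)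

/-! ### steps, generic in the constants -/

/-- the key rows of a chunk of `y` -/
def rkG (m r Y : ℕ) : ℕ := Nat.mul (Nat.land (fold16 Y) m) r

/-- the key columns of a chunk of `x` -/
def ckG (m r q Z : ℕ) : ℕ := Nat.mul r (Nat.mod (Nat.land (fold16 Z) m) q)

/-- top bits of the fields with different keys -/
def xkG (M H A B : ℕ) : ℕ := Nat.land (Nat.add (Nat.xor A B) M) H

/-- one pair of chunks with the word `x` -/
def prG (P H L : ℕ) (cb : ℕ → ℕ → Cb) (Y Z x : ℕ) : Cb := fun s c =>
  @Bool.rec (fun _ => Bool)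
    (hitG 4294967295 P (fun k => at2 2048 cb L Y Z (Nat.div k 64) (Nat.mod k 64)) 16385
      (Nat.shiftRight (Nat.xor x H) 31) s c)
    (c s) (Nat.beq x H)

/-- the loop over a list, nothing forced -/
def loop5 {α : Type} (f : α → Cb) (l : List α) : Cb :=
  @List.rec α (fun _ => Cb) (fun s c => c s) (fun a _ ih s c => f a s fun s' => ih s' c) l

theorem loop5_eq {α : Type} (f : α → Cb) (l : List α) (s : ℕ) (c : ℕ → Bool) :
    loop5 f l s c = loopL f l s c := by
  induction l generalizing s c with
  | nil => rfl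
  | cons a l ih =>
    rw [loopL_cons]
    show (f a s fun s' => loop5 f l s' c) = _
    congr 1
    funext s'
    exact ih s' c

theorem loopL_map {α β : Type} (g : β → α) (f : α → Cb) (l : List β) (s : ℕ) (c : ℕ → Bool) :
    loopL f (l.map g) s c = loopL (fun b => f (g b)) l s c := by
  induction l generalizing s c with
  | nil => rfl
  | cons a l ih =>
    rw [List.map_cons, loopL_cons, loopL_cons]
    congr 1
    funext s'
    exact ih s' c

theorem loopL_congr {α : Type} {f g : α → Cb} (h : ∀ a s c, f a s c = g a s c) (l : List α) (s : ℕ)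
    (c : ℕ → Bool) : loopL f l s c = loopL g l s c := by
  induction l generalizing s c with
  | nil => rfl
  | cons a l ih =>
    rw [loopL_cons, loopL_cons, h]
    congr 1
    funext s'
    exact ih s' c

/-- the engine, generic in the constants -/
def starG (m r r' q P M H L : ℕ) (cb : ℕ → ℕ → Cb) (ys zs : List ℕ) : Cb :=
  loop5 (fun Y => loop5 (fun Z => prG P H L cb Y Z (xkG M H (rkG m r Y) (ckG m r' q Z))) zs) ys

theorem starG_eq (m r r' q P M H : ℕ) (cb : ℕ → ℕ → Cb) (ys zs : List ℕ) (s : ℕ) (c : ℕ → Bool) :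
    starG m r r' q P M H (Nat.sub (Nat.pow 2 2048) 1) cb ys zs s c =
      chk2 2048 (rK3 m r) zK3 (cK3 m r' q) zK3 (pS4 P M H) cb ys zs s c := by
  unfold chk2
  rw [frc_eq, mkK2_eq]
  unfold starG
  rw [loop5_eq]
  refine loopL_congr (fun Y s c => ?_) ys s c
  unfold row2
  rw [frc_eq, frc_eq, loopL_map, loop5_eq]
  rfl

/-! ### constants -/

/-- `2 ^ 31 - 1` in 64 lanes -/
def sm : ℕ := (2 ^ 31 - 1) * rep 2048 64
/-- `1` in 64 fields of 32 bits -/
def sr : ℕ := rep 32 64
/-- `1` in 64 lanes -/
def sR : ℕ := rep 2048 64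
/-- compression of the lanes -/
def sq : ℕ := 2 ^ 2048 - 2 ^ 32
/-- a power of two above all words -/
def sP : ℕ := 2 ^ 131072
/-- `2 ^ 31 - 1` in the fields of the matrix -/
def sM : ℕ := (2 ^ 31 - 1) * rep 32 4096
/-- `2 ^ 31` in the fields of the matrix -/
def sH : ℕ := 2 ^ 31 * rep 32 4096
/-- the mask of a lane -/
def sL : ℕ := Nat.sub (Nat.pow 2 2048) 1

/-- THE STAR ENGINE for 64-lane chunks in the order of `star`, nothing forced -/
def star5 (cb : ℕ → ℕ → Cb) (ys zs : List ℕ) : Cb := starG sm sr sR sq sP sM sH sL cb ys zs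

/-- **the engines agree** -/
theorem star5_eq (cb : ℕ → ℕ → Cb) (ys zs : List ℕ) (s : ℕ) (c : ℕ → Bool) :
    star5 cb ys zs s c = star4 cb ys zs s c := by
  have h1 := starG_eq sm sr sR sq sP sM sH cb ys zs s c
  have h2 : star5 cb ys zs s c =
      starG sm sr sR sq sP sM sH (Nat.sub (Nat.pow 2 2048) 1) cb ys zs s c := by
    unfold star5
    rw [sL]
  rw [h2, h1]
  unfold star4
  simp only [frc_eq]
  rw [sm, sr, sR, sq, sP, sM, sH]

/-- SOUNDNESS of the engine, as a step -/
theorem star5_acc {D : ℕ → ℕ → Prop} {cb : ℕ → ℕ → Cb}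
    (hcb : ∀ u v, Acc (Agree u v → D u v) (cb u v)) (ys zs : List ℕ) :
    Acc (∀ Y ∈ ys, ∀ Z ∈ zs, ∀ i < 64, ∀ j < 64, Agree (fld 2048 Y i) (fld 2048 Z j) →
      D (fld 2048 Y i) (fld 2048 Z j)) (star5 cb ys zs) := by
  intro s c h
  rw [star5_eq] at h
  exact star4_acc hcb ys zs s c h

end Pool.Agent.Helper60.TY
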